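import Mathlib
import Pool.Agent.Y579.HR.Defs

/-!
The eight variants `IRT_XYZ` of Halin's infinite ray theorem and the scheme of `Σ¹₁` induction, for
structures for second-order arithmetic (Henkin semantics).
-/

namespace Pool.Agent.R601.Halin

open Pool.Agent.Helper617.RM Pool.Agent.Y579.HR

universe u

variable (N : L2Structure.{u})

/-- Positions on a ray: `inl n` is the integer `n` and `inr n` is the integer `-(n+1)`. -/
abbrev Pos : Type u := N.M ⊕ N.M

/-- The positions of a double ray are all positions, those of a single ray are the natural
numbers `inl n`. -/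
def IsPos (double : Bool) : Pos N → Prop
  | .inl _ => True
  | .inr _ => double = true

/-- The position `q` is the successor of the position `p`. -/
def Next : Pos N → Pos N → Prop
  | .inl n, .inl m => m = N.add n N.one
  | .inr n, .inl m => n = N.zero ∧ m = N.zero
  | .inr n, .inr m => n = N.add m N.one
  | .inl _, .inr _ => False

/-- `(V, E)` is a graph of the structure: a directed one (`E` is a set of codes of ordered pairs of
distinct elements of `V`), or an undirected one (moreover `E` is symmetric; an unordered pair is
represented by the two ordered pairs of its elements). -/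
def IsGraph (directed : Bool) (V E : Set N.M) : Prop :=
  IsDGraph N V E ∧ (directed = false → ∀ u v, N.pair u v ∈ E → N.pair v u ∈ E)

/-- `r` is a single or double ray in the graph `(V, E)`: its vertices are distinct, and there is an
edge from each vertex to the next one. -/
structure IsRay (double : Bool) (V E : Set N.M) (r : Pos N → N.M) : Prop where
  mem : ∀ p, IsPos N double p → r p ∈ V
  inj : ∀ p q, IsPos N double p → IsPos N double q → r p = r q → p = q
  adj : ∀ p q, IsPos N double p → IsPos N double q → Next N p q → N.pair (r p) (r q) ∈ E

/-- The rays `r` and `s` do not share a vertex. -/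
def VertexDisjoint (double : Bool) (r s : Pos N → N.M) : Prop :=
  ∀ p q, IsPos N double p → IsPos N double q → r p ≠ s q

/-- The rays `r` and `s` do not share an edge (in undirected graphs, the edge from `u` to `v` is
also the edge from `v` to `u`). -/
def EdgeDisjoint (directed double : Bool) (r s : Pos N → N.M) : Prop :=
  ∀ p p' q q', IsPos N double p → IsPos N double p' → IsPos N double q → IsPos N double q' →
    Next N p p' → Next N q q' →
      ¬ (r p = s q ∧ r p' = s q') ∧ (directed = false → ¬ (r p = s q' ∧ r p' = s q))

/-- The graph `(V, E)` has, in the structure, a sequence of pairwise disjoint rays `R i`, where `i`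
ranges over the numbers with `idx i`. The sequence is coded by two sets of the structure, `F` for
the natural numbers and `G` for the negative integers as positions. -/
def DisjointFamily (directed edge double : Bool) (V E : Set N.M) (idx : N.M → Prop) : Prop :=
  ∃ F ∈ N.Sets, ∃ G ∈ N.Sets, ∃ R : N.M → Pos N → N.M,
    (∀ i, idx i → ∀ n v, N.pair i (N.pair n v) ∈ F ↔ v = R i (.inl n)) ∧
    (∀ i, idx i → ∀ n v, N.pair i (N.pair n v) ∈ G ↔ v = R i (.inr n)) ∧
    (∀ i, idx i → IsRay N double V E (R i)) ∧
    ∀ i j, idx i → idx j → i ≠ j →
      if edge = true then EdgeDisjoint N directed double (R i) (R j)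
      else VertexDisjoint N double (R i) (R j)

/-- The principle `IRT_XYZ`, where `X = D` iff `directed`, `Y = E` iff `edge`, `Z = D` iff `double`:
every `X`-graph that has, for every number `k`, a sequence of `k` pairwise `Y`-disjoint `Z`-rays,
has an infinite sequence of pairwise `Y`-disjoint `Z`-rays. -/
def IRT (directed edge double : Bool) : Prop :=
  ∀ V E : Set N.M, IsGraph N directed V E →
    (∀ k, DisjointFamily N directed edge double V E (fun i => N.lt i k)) →
      DisjointFamily N directed edge double V E (fun _ => True)

/-- The scheme `IΣ¹₁` of induction for the formulas `∃ Y φ(n, Y)` with `φ` arithmetical, with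
number and set parameters (`Y` is a block of set variables). -/
def Sigma11Induction : Prop :=
  ∀ (φ : SForm N) (v : ℕ → N.M),
    (∃ Y : ℕ → Set N.M, (∀ j, Y j ∈ N.Sets) ∧ φ.Holds Y (cons N.zero v)) →
    (∀ n, (∃ Y : ℕ → Set N.M, (∀ j, Y j ∈ N.Sets) ∧ φ.Holds Y (cons n v)) →
      ∃ Y : ℕ → Set N.M, (∀ j, Y j ∈ N.Sets) ∧ φ.Holds Y (cons (N.add n N.one) v)) →
    ∀ n, ∃ Y : ℕ → Set N.M, (∀ j, Y j ∈ N.Sets) ∧ φ.Holds Y (cons n v)

end Pool.Agent.R601.Halin
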