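import Mathlib
import Pool.Agent.R601.Halin.Defs
import Pool.Agent.Y579.HR.Halin
import Pool.Agent.H798R3.DirRay

/-!
In the standard structure (all sets of natural numbers) the ray theorems for vertex-disjoint single
rays hold, and the theorem for edge-disjoint directed double rays fails.
-/

namespace Pool.Agent.R601.Halin

open Pool.Agent.Helper617.RM Pool.Agent.Y579.HR

/-! ### Halin's theorem, for relations on the natural numbers -/

theorem halin_nat {E : ℕ → ℕ → Prop} {W : ℕ → ℕ → ℕ → ℕ}
    (hW : ∀ k, ∃ p, (∀ i, i < k → ∀ n, E (W p i n) (W p i (n + 1))) ∧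
      ∀ i, i < k → ∀ j, j < k → ∀ n m, W p i n = W p j m → i = j ∧ n = m) :
    ∃ G : ℕ → ℕ → ℕ, (∀ i n, E (G i n) (G i (n + 1))) ∧
      ∀ i j n m, G i n = G j m → i = j ∧ n = m := by
  have h0 : Good E W ([] : List RC) := by
    constructor
    · intro i hi
      exact absurd hi (Nat.not_lt_zero i)
    · intro i hi
      exact absurd hi (Nat.not_lt_zero i)
  let St : Type := {L : List RC // Good E W L}
  have hstep : ∀ s : St, ∃ t : St, Ext W s.1 t.1 := by
    intro s
    obtain ⟨L', h1, h2⟩ := step_exists hW s.2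
    exact ⟨⟨L', h1⟩, h2⟩
  choose nx hnx using hstep
  let st : ℕ → St := fun n => Nat.rec ⟨[], h0⟩ (fun _ s => nx s) n
  have hst : ∀ n, Ext W (st n).1 (st (n + 1)).1 := fun n => hnx (st n)
  have hlen : ∀ n, (st n).1.length = n := by
    intro n
    induction n with
    | zero => rfl
    | succ n ih => rw [(hst n).1, ih]
  have hlt : ∀ i n, i < n → i < (st n).1.length := by
    intro i n h
    have h1 := hlen n
    exact lt_of_lt_of_eq h h1.symm
  have hstab : ∀ i n N, i + n + 1 ≤ N →
      ray W ((st N).1.getD i default) n = ray W ((st (i + n + 1)).1.getD i default) n := by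
    intro i n N hN
    induction N, hN using Nat.le_induction with
    | base => rfl
    | succ N hN ih =>
      rw [← ih]
      exact (hst N).2 i (hlt _ _ (by omega)) n (hlt _ _ (by omega))
  refine ⟨fun i n => ray W ((st (i + n + 1)).1.getD i default) n, fun i n => ?_,
    fun i j n m h => ?_⟩
  · have h1 := (st (i + (n + 1) + 1)).2.1 i (hlt i (i + (n + 1) + 1) (by omega)) n
    rw [hstab i n (i + (n + 1) + 1) (by omega)] at h1
    exact h1
  · simp only at h
    rw [← hstab i n (i + n + 1 + (j + m + 1)) (by omega),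
      ← hstab j m (i + n + 1 + (j + m + 1)) (by omega)] at h
    exact (st (i + n + 1 + (j + m + 1))).2.2 i (hlt i (i + n + 1 + (j + m + 1)) (by omega))
      j (hlt j (i + n + 1 + (j + m + 1)) (by omega)) n m h

/-! ### The digraph without infinitely many edge-disjoint directed double rays -/

section digraph

open Pool.Agent.H798R3 Pool.Agent.H798R3.DirRay

theorem many (k : ℕ) : ∃ R : Fin k → ℤ → DirRay.V,
    (∀ i, Function.Injective (R i)) ∧
    (∀ i n, DirRay.G.Adj (R i n) (R i (n + 1))) ∧
    (∀ i j, i ≠ j → ∀ m n : ℤ,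
      ¬ (R i m = R j n ∧ R i (m + 1) = R j (n + 1))) := by
  refine ⟨fun i => Q (k * k + i), fun i => Q_inj _, fun i n => ⟨_, Q_adj _ n⟩, ?_⟩
  intro i j hij m n ⟨h1, h2⟩
  have hne : k * k + (i : ℕ) ≠ k * k + j := by
    intro h
    apply hij
    apply Fin.ext
    omega
  refine Arc_disj (a := k * k + i) (b := k * k + j) hne ?_ (Q_adj _ m) ?_
  · rw [Nat.sqrt_add_eq k (by omega : (i:ℕ) ≤ k + k), Nat.sqrt_add_eq k (by omega : (j:ℕ) ≤ k + k)]
  · have h1' : Q (k * k + i) m = Q (k * k + j) n := h1
    have h2' : Q (k * k + i) (m+1) = Q (k * k + j) (n+1) := h2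
    rw [h1', h2']
    exact Q_adj _ n

theorem not_infinite : ¬ ∃ R : ℕ → ℤ → DirRay.V,
    (∀ i, Function.Injective (R i)) ∧
    (∀ i n, DirRay.G.Adj (R i n) (R i (n + 1))) ∧
    (∀ i j, i ≠ j → ∀ m n : ℤ,
      ¬ (R i m = R j n ∧ R i (m + 1) = R j (n + 1))) := by
  rintro ⟨R, hinj, hadj, hdis⟩
  choose f s hf using fun i => structure_thm (hinj i) (fun n => hadj i n)
  have hfinj : Function.Injective f := by
    intro i j hij
    by_contra hne
    have h1 := (hf i (max (s i) (s j)) (le_max_left _ _)).1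
    have h2 := (hf j (max (s i) (s j)) (le_max_right _ _)).1
    obtain ⟨m, hm⟩ := h1
    obtain ⟨n, hn⟩ := h2
    rw [← hij] at hn
    refine hdis i j hne m n ⟨hm.trans hn.symm, ?_⟩
    have e1 : DirRay.E (R i m) (R i (m+1)) := hadj i m
    have e2 : DirRay.E (R j n) (R j (n+1)) := hadj j n
    rw [hm] at e1
    rw [hn] at e2
    exact succ_w e1 e2
  have hcol : ∀ i, Nat.sqrt (f i) = Nat.sqrt (f 0) := by
    intro i
    by_contra hne
    have hi0 : i ≠ 0 := by rintro rfl; exact hne rfl
    obtain ⟨t, ht, hA, hB⟩ := freq (f i) (f 0) (max (s i) (s 0))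
    have hc : Cf t := by unfold Cf; rw [hA, hB]; exact hne
    obtain ⟨m, hm1, hm2⟩ := (hf i t (le_trans (le_max_left _ _) ht)).2.2 hA
    obtain ⟨n, hn1, hn2⟩ := (hf 0 t (le_trans (le_max_right _ _) ht)).2.1 hc hB
    exact hdis i 0 hi0 m n ⟨hm1.trans hn1.symm, hm2.trans hn2.symm⟩
  have hinf := Set.infinite_range_of_injective hfinj
  apply hinf
  apply (Set.finite_Iio ((Nat.sqrt (f 0) + 1) * (Nat.sqrt (f 0) + 1))).subset
  rintro _ ⟨i, rfl⟩
  have := Nat.lt_succ_sqrt (f i)
  rw [hcol i] at this
  exact this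

/-- The vertices of the digraph as natural numbers. -/
def enc : DirRay.V → ℕ
  | .z t => Nat.pair 0 t
  | .p t => Nat.pair 1 t
  | .q t => Nat.pair 2 t
  | .r t => Nat.pair 3 t
  | .u t a => Nat.pair 4 (Nat.pair t a)
  | .x t a => Nat.pair 5 (Nat.pair t a)
  | .w a t => Nat.pair 6 (Nat.pair a t)
  | .y a t => Nat.pair 7 (Nat.pair a t)
  | .y' a t => Nat.pair 8 (Nat.pair a t)

theorem enc_inj : Function.Injective enc := by
  intro v v' h
  cases v <;> cases v' <;> simp_all [enc, Nat.pair_eq_pair]

theorem adj_ne {v v' : DirRay.V} (h : DirRay.G.Adj v v') : v ≠ v' := by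
  obtain ⟨a, h⟩ := h
  cases h <;> simp

end digraph

/-! ### The standard structure -/

theorem pr_eq_pair (a b : ℕ) : fullModel.pair a b = ((a + b) * (a + b) + a : ℕ) := rfl

theorem pair_inj {a b a' b' : ℕ} (h : fullModel.pair a b = fullModel.pair a' b') :
    a = a' ∧ b = b' := by
  have h' : (a + b) * (a + b) + a = (a' + b') * (a' + b') + a' := h
  have h1 : a + b = a' + b' := by
    rcases lt_trichotomy (a + b) (a' + b') with h2 | h2 | h2
    · nlinarith
    · exact h2
    · nlinarith
  rw [h1] at h'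
  omega

theorem full_sigma11 : Sigma11Induction fullModel := by
  intro φ v h0 hs n
  have key : ∀ n : ℕ, ∃ Y : ℕ → Set fullModel.M, (∀ j, Y j ∈ fullModel.Sets) ∧
      φ.Holds Y (cons (n : fullModel.M) v) := by
    intro n
    induction n with
    | zero => exact h0
    | succ n ih => exact hs n ih
  exact key n

/-- the code of a family of sequences -/
theorem fam_code (R : ℕ → ℕ → ℕ) :
    ∀ i n v : ℕ, fullModel.pair i (fullModel.pair n v) ∈
      ({x : ℕ | ∃ i n, x = fullModel.pair i (fullModel.pair n (R i n))} : Set ℕ) ↔ v = R i n := by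
  intro i n v
  constructor
  · rintro ⟨i', n', h⟩
    obtain ⟨h1, h2⟩ := pair_inj h
    obtain ⟨h3, h4⟩ := pair_inj h2
    rw [h1, h3, h4]
  · rintro rfl
    exact ⟨i, n, rfl⟩

theorem full_single (dir : Bool) : IRT fullModel dir false false := by
  intro V E hG hk
  choose F _ G' _ R hF _ hR hdis using hk
  obtain ⟨G, hG1, hG2⟩ := halin_nat (E := fun u v => fullModel.pair u v ∈ E)
    (W := fun p i n => (R p i (.inl n) : ℕ)) (by
      intro k
      refine ⟨k, fun i hi n => ?_, fun i hi j hj n m h => ?_⟩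
      · exact (hR k i hi).adj (.inl n) (.inl (n + 1 : ℕ)) trivial trivial rfl
      · by_cases hij : i = j
        · subst hij
          have := (hR k i hi).inj (.inl n) (.inl m) trivial trivial h
          exact ⟨rfl, Sum.inl.inj this⟩
        · exact absurd h (hdis k i j hi hj hij (.inl n) (.inl m) trivial trivial))
  refine ⟨{x : ℕ | ∃ i n, x = fullModel.pair i (fullModel.pair n (G i n))}, Set.mem_univ _,
    {x : ℕ | ∃ i n, x = fullModel.pair i (fullModel.pair n (G i n))}, Set.mem_univ _,
    fun i => Sum.elim (G i) (G i), fun i _ => fam_code G i, fun i _ => fam_code G i, ?_, ?_⟩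
  · intro i _
    refine ⟨?_, ?_, ?_⟩
    · rintro (n | n) hn
      · obtain ⟨u, v, hu, hv, _, h⟩ := hG.1.edge _ (hG1 i n)
        have h1 : G i n = u := (pair_inj h).1
        change G i n ∈ V
        rw [h1]
        exact hu
      · exact absurd hn (by simp [IsPos])
    · rintro (n | n) (m | m) hn hm h
      · exact congrArg Sum.inl (hG2 i i n m h).2
      · exact absurd hm (by simp [IsPos])
      · exact absurd hn (by simp [IsPos])
      · exact absurd hn (by simp [IsPos])
    · rintro (n | n) (m | m) hn hm h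
      · have h' : m = Nat.succ n := h
        subst h'
        exact hG1 i n
      · exact absurd hm (by simp [IsPos])
      · exact absurd hn (by simp [IsPos])
      · exact absurd hn (by simp [IsPos])
  · intro i j _ _ hij
    rw [if_neg (by decide)]
    rintro (n | n) (m | m) hn hm h
    · exact hij (hG2 i j n m h).1
    · exact absurd hm (by simp [IsPos])
    · exact absurd hn (by simp [IsPos])
    · exact absurd hn (by simp [IsPos])

/-- A position of a double ray as an integer. -/
def toInt : Pos fullModel → ℤ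
  | .inl n => Int.ofNat n
  | .inr n => Int.negSucc n

/-- An integer as a position of a double ray. -/
def ofInt : ℤ → Pos fullModel
  | .ofNat n => .inl n
  | .negSucc n => .inr n

theorem toInt_inj {p q : Pos fullModel} (h : toInt p = toInt q) : p = q := by
  rcases p with p | p <;> rcases q with q | q
  · exact congrArg Sum.inl (Int.ofNat.inj h)
  · exact absurd h (by simp [toInt])
  · exact absurd h (by simp [toInt])
  · exact congrArg Sum.inr (Int.negSucc.inj h)

theorem ofInt_inj {m n : ℤ} (h : ofInt m = ofInt n) : m = n := by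
  rcases m with m | m <;> rcases n with n | n
  · exact congrArg Int.ofNat (Sum.inl.inj h)
  · exact absurd h (by simp [ofInt])
  · exact absurd h (by simp [ofInt])
  · exact congrArg Int.negSucc (Sum.inr.inj h)

theorem toInt_next {p q : Pos fullModel} (h : Next fullModel p q) : toInt q = toInt p + 1 := by
  rcases p with p | p <;> rcases q with q | q
  · have h' : q = Nat.succ p := h
    subst h'
    rfl
  · exact absurd h (by simp [Next])
  · have h' : p = Nat.zero ∧ q = Nat.zero := h
    obtain ⟨rfl, rfl⟩ := h'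
    rfl
  · have h' : p = Nat.succ q := h
    subst h'
    rfl

theorem next_ofInt (n : ℤ) : Next fullModel (ofInt n) (ofInt (n + 1)) := by
  rcases n with n | n
  · rfl
  · rcases n with _ | n
    · exact ⟨rfl, rfl⟩
    · rfl

/-- The vertex set of the digraph. -/
def VV : Set ℕ := Set.range enc

/-- The edge set of the digraph. -/
def EE : Set ℕ :=
  {x : ℕ | ∃ v v' : Pool.Agent.H798R3.DirRay.V, Pool.Agent.H798R3.DirRay.G.Adj v v' ∧
    x = fullModel.pair (enc v) (enc v')}

theorem mem_EE {v v' : Pool.Agent.H798R3.DirRay.V} :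
    fullModel.pair (enc v) (enc v') ∈ EE ↔ Pool.Agent.H798R3.DirRay.G.Adj v v' := by
  constructor
  · rintro ⟨w, w', h1, h2⟩
    obtain ⟨h3, h4⟩ := pair_inj h2
    rw [enc_inj h3, enc_inj h4]
    exact h1
  · intro h
    exact ⟨v, v', h, rfl⟩

theorem not_full_ded : ¬ IRT fullModel true true true := by
  intro H
  have hG : IsGraph fullModel true VV EE := by
    refine ⟨⟨Set.mem_univ _, Set.mem_univ _, ?_⟩, fun h => absurd h (by decide)⟩
    rintro _ ⟨v, v', h, rfl⟩
    exact ⟨enc v, enc v', ⟨v, rfl⟩, ⟨v', rfl⟩, fun h' => adj_ne h (enc_inj h'), rfl⟩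
  have hmany : ∀ k : ℕ,
      DisjointFamily fullModel true true true VV EE (fun i => fullModel.lt i k) := by
    intro k
    obtain ⟨R, hR1, hR2, hR3⟩ := many k
    obtain ⟨S, hS⟩ : ∃ S : ℕ → Pos fullModel → ℕ, ∀ (i : ℕ) (h : i < k) p,
        S i p = enc (R ⟨i, h⟩ (toInt p)) := by
      refine ⟨fun i p => if h : i < k then enc (R ⟨i, h⟩ (toInt p)) else 0, fun i h p => ?_⟩
      simp only [dif_pos h]
    refine ⟨{x : ℕ | ∃ i n, x = fullModel.pair i (fullModel.pair n (S i (.inl n)))},
      Set.mem_univ _,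
      {x : ℕ | ∃ i n, x = fullModel.pair i (fullModel.pair n (S i (.inr n)))}, Set.mem_univ _,
      S, fun i _ => fam_code (fun i n => S i (.inl n)) i,
      fun i _ => fam_code (fun i n => S i (.inr n)) i, ?_, ?_⟩
    · intro i hi
      refine ⟨?_, ?_, ?_⟩
      · intro p _
        rw [hS i hi]
        exact ⟨_, rfl⟩
      · intro p q _ _ h
        rw [hS i hi, hS i hi] at h
        exact toInt_inj (hR1 _ (enc_inj h))
      · intro p q _ _ h
        rw [hS i hi, hS i hi, toInt_next h]
        exact mem_EE.2 (hR2 _ _)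
    · intro i j hi hj hij
      rw [if_pos rfl]
      intro p p' q q' _ _ _ _ hp hq
      refine ⟨fun h => ?_, fun h => absurd h (by decide)⟩
      rw [hS i hi, hS i hi, hS j hj, hS j hj, toInt_next hp, toInt_next hq] at h
      exact hR3 ⟨i, hi⟩ ⟨j, hj⟩ (fun h' => hij (congrArg Fin.val h')) _ _
        ⟨enc_inj h.1, enc_inj h.2⟩
  have hpos : ∀ p : Pos fullModel, IsPos fullModel true p := by
    intro p
    rcases p with p | p <;> simp [IsPos]
  obtain ⟨R, hR, hdis⟩ : ∃ R : ℕ → Pos fullModel → ℕ,
      (∀ i, IsRay fullModel true VV EE (R i)) ∧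
      ∀ i j, i ≠ j → EdgeDisjoint fullModel true true (R i) (R j) := by
    obtain ⟨_, _, _, _, R, _, _, hR, hdis⟩ := H VV EE hG hmany
    exact ⟨R, fun i => hR i trivial, fun i j hij => hdis i j trivial trivial hij⟩
  have hmem : ∀ (i : ℕ) (n : ℤ), ∃ v, enc v = R i (ofInt n) :=
    fun i n => (hR i).mem (ofInt n) (hpos _)
  choose f hf using hmem
  refine not_infinite ⟨f, ?_, ?_, ?_⟩
  · intro i m n h
    have h2 : R i (ofInt m) = R i (ofInt n) := by rw [← hf, ← hf, h]
    exact ofInt_inj ((hR i).inj _ _ (hpos _) (hpos _) h2)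
  · intro i n
    apply mem_EE.1
    rw [hf, hf]
    exact (hR i).adj _ _ (hpos _) (hpos _) (next_ofInt n)
  · rintro i j hij m n ⟨h1, h2⟩
    refine (hdis i j hij (ofInt m) (ofInt (m + 1)) (ofInt n) (ofInt (n + 1)) (hpos _) (hpos _)
      (hpos _) (hpos _) (next_ofInt m) (next_ofInt n)).1 ⟨?_, ?_⟩
    · rw [← hf, ← hf, h1]
    · rw [← hf, ← hf, h2]

end Pool.Agent.R601.Halin
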